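import Mathlib
import Pool.Agent.Helper705.Rad.RVerbal

set_option autoImplicit false

namespace Pool.Agent.Y448.Rad

open Pool.Agent.Helper705.Rad

/-- a cyclic group has no nontrivial radicable subgroup -/
lemma cyc_rad {F : Type} [Group F] (hF : IsCyclic F) (H : Subgroup F)
    (hH : ∀ h ∈ H, ∀ n : ℕ, 1 ≤ n → ∃ x ∈ H, x ^ n = h) : H = ⊥ := by
  have hc : IsCyclic H := Subgroup.isCyclic H
  obtain ⟨⟨h, hh⟩, hgen⟩ := hc.exists_generator
  have hg : ∀ x ∈ H, ∃ k : ℤ, h ^ k = x := by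
    intro x hx
    obtain ⟨k, hk⟩ := Subgroup.mem_zpowers_iff.mp (hgen ⟨x, hx⟩)
    exact ⟨k, congrArg Subtype.val hk⟩
  obtain ⟨x, hx, hx2⟩ := hH h hh 2 (by norm_num)
  obtain ⟨k, rfl⟩ := hg x hx
  have h1 : h ^ (k * 2 - 1) = 1 := by
    rw [zpow_sub, zpow_one, zpow_mul]
    have : (h ^ k) ^ (2 : ℤ) = h := by
      rw [show (2 : ℤ) = ((2 : ℕ) : ℤ) by norm_num, zpow_natCast]
      exact hx2
    rw [this, mul_inv_cancel]
  have hfin : IsOfFinOrder h := isOfFinOrder_iff_zpow_eq_one.mpr ⟨k * 2 - 1, by omega, h1⟩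
  obtain ⟨y, hy, hy2⟩ := hH h hh (orderOf h) (orderOf_pos_iff.mpr hfin)
  obtain ⟨l, rfl⟩ := hg y hy
  have h2 : (h ^ l) ^ orderOf h = 1 := by
    rw [← zpow_natCast, ← zpow_mul, mul_comm, zpow_mul, zpow_natCast, pow_orderOf_eq_one, one_zpow]
  have h3 : h = 1 := hy2.symm.trans h2
  rw [eq_bot_iff]
  intro z hz
  obtain ⟨j, rfl⟩ := hg z hz
  rw [h3, one_zpow]
  exact one_mem _

lemma free_cyclic (α : Type) (hα : Subsingleton α) : IsCyclic (FreeGroup α) := by
  rcases isEmpty_or_nonempty α with h | ⟨⟨a⟩⟩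
  · exact isCyclic_of_subsingleton
  · refine ⟨FreeGroup.of a, fun x => ?_⟩
    have h1 : Subgroup.closure (Set.range (FreeGroup.of : α → FreeGroup α)) = ⊤ :=
      FreeGroup.closure_range_of α
    have h2 : Subgroup.closure (Set.range (FreeGroup.of : α → FreeGroup α)) ≤
        Subgroup.zpowers (FreeGroup.of a) := by
      rw [Subgroup.closure_le]
      rintro _ ⟨b, rfl⟩
      rw [Subsingleton.elim b a]
      exact Subgroup.mem_zpowers _
    rw [h1] at h2
    exact h2 (Subgroup.mem_top x)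

lemma rank_one (U : Set (FreeGroup ℕ)) (α : Type) (hα : Subsingleton α)
    (H : Subgroup (FreeGroup α ⧸ Verbal U (FreeGroup α)))
    (hH : ∀ h ∈ H, ∀ n : ℕ, 1 ≤ n → ∃ x ∈ H, x ^ n = h) : H = ⊥ := by
  apply cyc_rad _ H hH
  have := free_cyclic α hα
  exact isCyclic_of_surjective (QuotientGroup.mk' (Verbal U (FreeGroup α)))
    (QuotientGroup.mk'_surjective _)

end Pool.Agent.Y448.Rad
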