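import Mathlib
import Pool.Agent.Helper705.Rad.RVerbal
import Pool.Agent.Helper705.Rad.RFin

set_option autoImplicit false

open scoped commutatorElement

namespace Pool.Agent.Y448.Rad

open Pool.Agent.Helper705.Rad Pool.Agent.Helper705.SRF Pool.Agent.Helper705.Hopf

section cen

variable {S : Type} [AddCommGroup S] [DistribMulAction TT S] (D : Dat S)

/-- the elements of the bottom module as a homomorphism -/
noncomputable def zc : Multiplicative TT.L3 →* D.GG where
  toFun c := SemidirectProduct.inl (⟨0, Multiplicative.toAdd c⟩ : D.E3)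
  map_one' := by
    apply SemidirectProduct.ext
    · rfl
    · rfl
  map_mul' c d := by
    rw [← map_mul]
    congr 1
    apply Ext.ext
    · simp
    · simp

lemma zc_apply (c : TT.L3) :
    zc D (Multiplicative.ofAdd c) = SemidirectProduct.inl (⟨0, c⟩ : D.E3) := rfl

lemma zc_inj (c : Multiplicative TT.L3) (h : zc D c = 1) : c = 1 := by
  have h3 := congrArg (fun x : D.GG => x.left.snd) h
  exact h3

/-- functions whose support is bounded above -/
def Bd (f : TT.L3) : Prop := ∃ B : ℤ, ∀ n, B < n → f n = 0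

lemma Bd_zero : Bd 0 := ⟨0, fun _ _ => rfl⟩

lemma Bd_add (f g : TT.L3) (hf : Bd f) (hg : Bd g) : Bd (f + g) := by
  obtain ⟨B, hB⟩ := hf
  obtain ⟨C, hC⟩ := hg
  refine ⟨max B C, fun n hn => ?_⟩
  rw [Pi.add_apply, hB n (lt_of_le_of_lt (le_max_left _ _) hn),
    hC n (lt_of_le_of_lt (le_max_right _ _) hn), add_zero]

lemma Bd_smul (a : ℚ) (f : TT.L3) (hf : Bd f) : Bd (a • f) := by
  obtain ⟨B, hB⟩ := hf
  exact ⟨B, fun n hn => by rw [Pi.smul_apply, hB n hn, smul_zero]⟩

lemma Bd_kap (w : D.G1) : Bd (D.kap w) := by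
  refine ⟨((D.t1 w)⁻¹).d, fun n hn => ?_⟩
  unfold Dat.kap
  rw [TT.lin_apply]
  unfold TT.e0
  rw [if_neg (by omega), mul_zero]

lemma Bd_pr (φ : D.G1 →₀ ℚ) (f : D.G1 → ℚ) : Bd (D.pr φ f) := by
  induction φ using Finsupp.induction_linear with
  | zero => rw [Dat.pr_zero_left]; exact Bd_zero
  | add p q hp hq => rw [Dat.pr_add_left]; exact Bd_add _ _ hp hq
  | single w a => rw [Dat.pr_single]; exact Bd_smul _ _ (Bd_kap D w)

/-- values of the word -/
lemma vW_zc (h2 : ∀ a : S, a + a = 0) (a : ℕ → D.GG) :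
    ∃ c : TT.L3, Bd c ∧ vW a = zc D (Multiplicative.ofAdd c) := by
  choose f hf using fun i => QuotientGroup.mk'_surjective D.W (a i).right
  refine ⟨_, ?_, (D.vW_val h2 a f (fun i => (hf i).symm)).trans (zc_apply D _).symm⟩
  rw [sub_eq_add_neg, ← Dat.pr_neg_left]
  exact Bd_add _ _ (Bd_pr D _ _) (Bd_pr D _ _)

lemma verbal_range (h2 : ∀ a : S, a + a = 0) : Verbal WW D.GG ≤ (zc D).range := by
  apply verbal_le
  intro u
  obtain ⟨c, _, hc⟩ := vW_zc D h2 u
  exact ⟨_, hc.symm⟩

lemma tf_K (h2 : ∀ a : S, a + a = 0) (x : D.GG) (hx : x ∈ Verbal WW D.GG) (n : ℕ) (hn : 1 ≤ n)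
    (h : x ^ n = 1) : x = 1 := by
  obtain ⟨c, rfl⟩ := verbal_range D h2 hx
  rw [← map_pow] at h
  have h1 := zc_inj D _ h
  have h3 : n • Multiplicative.toAdd c = 0 := h1
  have h4 : Multiplicative.toAdd c = 0 := by
    rcases smul_eq_zero.mp h3 with h5 | h5
    · omega
    · exact h5
  have h5 : c = 1 := h4
  rw [h5, map_one]

lemma lin_indep (t : TT) (ht : t.d = 1) (c : TT.L3) (hc : c ≠ 0) (hb : Bd c) (N : ℕ) (k : ℕ → ℤ)
    (h : (∑ i ∈ Finset.range N, k i • TT.lin (t ^ i) c) = 0) : ∀ i < N, k i = 0 := by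
  obtain ⟨B, hB⟩ := hb
  obtain ⟨m, hm⟩ := Function.ne_iff.mp hc
  obtain ⟨q, hq1, hq2⟩ : ∃ q : ℤ, c q ≠ 0 ∧ ∀ n, c n ≠ 0 → n ≤ q :=
    Int.exists_greatest_of_bdd (P := fun n => c n ≠ 0)
      ⟨B, fun z hz => by
        by_contra hlt
        exact hz (hB z (by omega))⟩ ⟨m, hm⟩
  have hq3 : ∀ n, q < n → c n = 0 := fun n hn => by
    by_contra h'
    have := hq2 n h'
    omega
  induction N with
  | zero => intro i hi; omega
  | succ N ih =>
    have hN : k N = 0 := by
      have h1 := congrFun h (q + N)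
      rw [Finset.sum_apply, Finset.sum_range_succ, Finset.sum_eq_zero, zero_add] at h1
      · rw [Pi.smul_apply, TT.lin_apply, TT.pow_d, ht, mul_one, add_sub_cancel_right] at h1
        have h2 : (((t ^ N).β (q + N) : ℚˣ) : ℚ) ≠ 0 := Units.ne_zero _
        rcases smul_eq_zero.mp h1 with h3 | h3
        · exact h3
        · exact absurd h3 (mul_ne_zero h2 hq1)
      · intro i hi
        have hi' := Finset.mem_range.mp hi
        rw [Pi.smul_apply, TT.lin_apply, TT.pow_d, ht, mul_one, hq3 _ (by omega), mul_zero,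
          smul_zero]
    rw [Finset.sum_range_succ, hN, zero_smul, add_zero] at h
    intro i hi
    by_cases hi' : i < N
    · exact ih h i hi'
    · have : i = N := by omega
      rw [this, hN]

end cen

/-- Multiplicative independence of a sequence (of commuting elements). -/
def Indep {G : Type} [Group G] (y : ℕ → G) : Prop :=
  ∀ (N : ℕ) (k : ℕ → ℤ), ((List.range N).map (fun i => y i ^ k i)).prod = 1 → ∀ i < N, k i = 0

/-- the conjugates of a value of the word -/
def yW {G : Type} [Group G] (a : ℕ → G) (i : ℕ) : G := a 13 ^ i * vW a * (a 13 ^ i)⁻¹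

lemma map_yW {G H : Type} [Group G] [Group H] (φ : G →* H) (a : ℕ → G) (i : ℕ) :
    φ (yW a i) = yW (fun j => φ (a j)) i := by
  unfold yW
  rw [map_mul, map_mul, map_inv, map_pow, map_vW]

lemma indep_map {G H : Type} [Group G] [Group H] (φ : G →* H) (y : ℕ → G)
    (h : Indep (fun i => φ (y i))) : Indep y := by
  intro N k hk
  apply h N k
  have h1 := congrArg φ hk
  rw [map_list_prod, List.map_map, map_one] at h1
  rw [← h1]
  congr 1
  apply List.map_congr_left
  intro i _
  simp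

lemma indep_K : Indep (yW aL) := by
  intro N k hk
  obtain ⟨c, hc, hv⟩ := vW_zc DL two_SS aL
  have hc0 : c ≠ 0 := by
    rintro rfl
    apply nonlaw
    rw [hv]
    exact map_one (zc DL)
  have hy : ∀ i, yW aL i = zc DL (Multiplicative.ofAdd (TT.lin (tE ^ i) c)) := by
    intro i
    unfold yW
    rw [hv, zc_apply, DL.conj_cen, zc_apply]
    have h1 : (aL 13 ^ i : DL.GG).right = DL.cl (fL 13) ^ i := by
      have e := map_pow (SemidirectProduct.rightHom : DL.GG →* DL.G1) (aL 13) i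
      refine e.trans ?_
      rw [← aL_right 13]
      rfl
    rw [h1, map_pow, t1_13]
  have hp : ∀ N : ℕ, ((List.range N).map (fun i => yW aL i ^ k i)).prod =
      zc DL (Multiplicative.ofAdd (∑ i ∈ Finset.range N, k i • TT.lin (tE ^ i) c)) := by
    intro N
    induction N with
    | zero => simp
    | succ N ih =>
      rw [List.range_succ, List.map_append, List.prod_append, ih, Finset.sum_range_succ, ofAdd_add,
        map_mul]
      congr 1
      rw [List.map_singleton, List.prod_singleton, hy, ← map_zpow, ← ofAdd_zsmul]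
  rw [hp] at hk
  have h1 := zc_inj DL _ hk
  have h2 : (∑ i ∈ Finset.range N, k i • TT.lin (tE ^ i) c) = 0 := h1
  exact lin_indep tE d_tE c hc0 hc N k h2

section rel

variable {K : Type} [Group K] (α : Type)

/-- the induced homomorphism -/
noncomputable def ind (ψ : FreeGroup α →* K) :
    (FreeGroup α ⧸ Verbal (Laws K) (FreeGroup α)) →* K :=
  QuotientGroup.lift (Verbal (Laws K) (FreeGroup α)) ψ (fun u hu => verbal_laws_le u hu ψ)

lemma ind_mk (ψ : FreeGroup α →* K) (x : FreeGroup α) :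
    ind α ψ (QuotientGroup.mk' (Verbal (Laws K) (FreeGroup α)) x) = ψ x := rfl

lemma verbal_map {F : Type} [Group F] (φ : F →* K) (x : F) (hx : x ∈ Verbal WW F) :
    φ x ∈ Verbal WW K := by
  have hle : Verbal WW F ≤ (Verbal WW K).comap φ := by
    apply verbal_le
    intro u
    rw [Subgroup.mem_comap, map_vW]
    apply Subgroup.subset_closure
    exact (mem_WW _).mpr ⟨_, rfl⟩
  exact hle hx

lemma rel_tf (ht : ∀ x ∈ Verbal WW K, ∀ n : ℕ, 1 ≤ n → x ^ n = 1 → x = 1)
    (x : FreeGroup α ⧸ Verbal (Laws K) (FreeGroup α)) (hx : x ∈ Verbal WW _) (n : ℕ) (hn : 1 ≤ n)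
    (h : x ^ n = 1) : x = 1 := by
  obtain ⟨u, rfl⟩ := QuotientGroup.mk'_surjective (Verbal (Laws K) (FreeGroup α)) x
  rw [← map_one (QuotientGroup.mk' (Verbal (Laws K) (FreeGroup α)))]
  apply pj_eq
  intro ψ
  rw [map_one, ← ind_mk α ψ u]
  apply ht _ (verbal_map (ind α ψ) _ hx) n hn
  rw [← map_pow, h, map_one]

lemma rel_indep (a : ℕ → K) (ha : Indep (yW a)) (ι : Fin 17 ↪ α) :
    ∃ b : ℕ → FreeGroup α ⧸ Verbal (Laws K) (FreeGroup α), Indep (yW b) := by
  classical
  let v : ℕ → FreeGroup α := fun i => if h : i < 17 then FreeGroup.of (ι ⟨i, h⟩) else 1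
  let f : α → K := fun x => if h : ∃ i : Fin 17, ι i = x then
    a ((Classical.choose h : Fin 17) : ℕ) else 1
  let ψ : FreeGroup α →* K := FreeGroup.lift f
  refine ⟨fun i => QuotientGroup.mk' (Verbal (Laws K) (FreeGroup α)) (v i), ?_⟩
  apply indep_map (ind α ψ)
  have hv : ∀ i, i < 17 → ψ (v i) = a i := by
    intro i hi
    have e1 : v i = FreeGroup.of (ι ⟨i, hi⟩) := by
      simp only [v]; rw [dif_pos hi]
    have hex : ∃ j : Fin 17, ι j = ι ⟨i, hi⟩ := ⟨_, rfl⟩
    have e2 : ((Classical.choose hex : Fin 17) : ℕ) = i := by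
      have := ι.injective (Classical.choose_spec hex)
      rw [this]
    rw [e1]
    have e4 : ψ (FreeGroup.of (ι ⟨i, hi⟩)) = f (ι ⟨i, hi⟩) := FreeGroup.lift_apply_of
    rw [e4]
    simp only [f]
    rw [dif_pos hex, e2]
  have he : (fun i => ind α ψ (yW (fun i => QuotientGroup.mk' (Verbal (Laws K) (FreeGroup α))
      (v i)) i)) = yW a := by
    funext i
    rw [map_yW]
    have h13 : ψ (v 13) = a 13 := hv 13 (by decide)
    have hvw : vW (fun j => ψ (v j)) = vW a := vW_congr _ _ hv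
    unfold yW
    change ψ (v 13) ^ i * vW (fun j => ψ (v j)) * (ψ (v 13) ^ i)⁻¹ = _
    rw [h13, hvw]
  rw [he]
  exact ha

end rel

end Pool.Agent.Y448.Rad
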