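import Mathlib
import Pool.Agent.Y448.Rad.Str

set_option autoImplicit false

open scoped commutatorElement

namespace Pool.Agent.Y448.Rad

open Pool.Agent.Helper705.Rad Pool.Agent.Helper705.SRF Pool.Agent.Helper705.Hopf

section wreath

variable (K : Type) [Group K]

/-- the shift of functions on the integers -/
def sh (t : ℤ) : MulAut (ℤ → K) where
  toFun f := fun n => f (n + t)
  invFun f := fun n => f (n - t)
  left_inv f := by funext n; simp
  right_inv f := by funext n; simp
  map_mul' f g := rfl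

/-- the shift action -/
def shA : Multiplicative ℤ →* MulAut (ℤ → K) where
  toFun t := sh K (Multiplicative.toAdd t)
  map_one' := by
    apply MulEquiv.ext; intro f; funext n
    change f (n + 0) = f n
    rw [add_zero]
  map_mul' s t := by
    apply MulEquiv.ext; intro f; funext n
    change f (n + (Multiplicative.toAdd s + Multiplicative.toAdd t)) =
      f (n + Multiplicative.toAdd s + Multiplicative.toAdd t)
    rw [add_assoc]

/-- the unrestricted wreath product with the integers -/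
abbrev KK := (ℤ → K) ⋊[shA K] Multiplicative ℤ

variable {K}

lemma sol_pi (d : ℕ) (hd : derivedSeries K d = ⊥) : derivedSeries (ℤ → K) d = ⊥ := by
  rw [eq_bot_iff]
  intro f hf
  rw [Subgroup.mem_bot]
  funext n
  have h1 : (Pi.evalMonoidHom (fun _ : ℤ => K) n) f ∈ derivedSeries K d :=
    map_derivedSeries_le_derivedSeries (Pi.evalMonoidHom (fun _ : ℤ => K) n) d ⟨f, hf, rfl⟩
  rw [hd] at h1
  exact h1

lemma sol_KK (d : ℕ) (hd : derivedSeries K d = ⊥) : ∃ e : ℕ, derivedSeries (KK K) e = ⊥ := by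
  have : Group.IsSolvable (ℤ → K) := ⟨d, sol_pi d hd⟩
  have : Group.IsSolvable (KK K) := by
    apply Group.isSolvable_of_ker_le_range (SemidirectProduct.inl : (ℤ → K) →* KK K)
      (SemidirectProduct.rightHom : KK K →* Multiplicative ℤ)
    rw [SemidirectProduct.range_inl_eq_ker_rightHom]
  exact this.solvable

/-- commutators lie in the base group -/
lemma comm_base (p q : KK K) : ∃ g : ℤ → K, ⁅p, q⁆ = SemidirectProduct.inl g := by
  have h : ⁅p, q⁆ ∈ (SemidirectProduct.rightHom : KK K →* Multiplicative ℤ).ker := by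
    rw [MonoidHom.mem_ker, map_commutatorElement]
    exact commutatorElement_eq_one_iff_mul_comm.mpr (mul_comm _ _)
  rw [← SemidirectProduct.range_inl_eq_ker_rightHom] at h
  obtain ⟨g, hg⟩ := h
  exact ⟨g, hg.symm⟩

end wreath

/-- the tuple of commutators -/
def cm {G : Type} [Group G] (p : ℕ → G) : ℕ → G := fun i => ⁅p (2 * i), p (2 * i + 1)⁆

lemma map_cm {G H : Type} [Group G] [Group H] (φ : G →* H) (p : ℕ → G) :
    (fun i => φ (cm p i)) = cm (fun i => φ (p i)) := by
  funext i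
  unfold cm
  rw [map_commutatorElement]

/-- the new word -/
noncomputable def vC : FreeGroup ℕ := vW (cm FreeGroup.of)

lemma vC_val {G : Type} [Group G] (φ : FreeGroup ℕ →* G) :
    φ vC = vW (cm (fun i => φ (FreeGroup.of i))) := by
  unfold vC
  rw [map_vW, map_cm]

lemma mem_VC {F : Type} [Group F] (y : F) :
    (∃ w ∈ ({vC} : Set (FreeGroup ℕ)), ∃ φ : FreeGroup ℕ →* F, φ w = y) ↔
    ∃ p : ℕ → F, vW (cm p) = y := by
  constructor
  · rintro ⟨w, hw, φ, rfl⟩
    have hw' : w = vC := hw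
    rw [hw', vC_val]
    exact ⟨_, rfl⟩
  · rintro ⟨p, rfl⟩
    refine ⟨vC, rfl, FreeGroup.lift p, ?_⟩
    rw [vC_val]
    congr 2
    funext i
    exact FreeGroup.lift_apply_of

lemma vC_mem {F : Type} [Group F] (p : ℕ → F) : vW (cm p) ∈ Verbal {vC} F :=
  Subgroup.subset_closure ((mem_VC _).mpr ⟨p, rfl⟩)

lemma verbalC_le {F : Type} [Group F] {K : Subgroup F} (h : ∀ p : ℕ → F, vW (cm p) ∈ K) :
    Verbal {vC} F ≤ K := by
  unfold Verbal
  rw [Subgroup.closure_le]
  intro z hz
  obtain ⟨u, rfl⟩ := (mem_VC z).mp hz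
  exact h u

section abs

variable {F : Type} [Group F]

lemma C_comm (hc : ∀ p p' : ℕ → F, commG (vW (cm p)) (vW (cm p')))
    (x y : F) (hx : x ∈ Verbal {vC} F) (hy : y ∈ Verbal {vC} F) : x * y = y * x := by
  have h1 : ∀ (u : ℕ → F) (y : F), y ∈ Verbal {vC} F → y * vW (cm u) = vW (cm u) * y := by
    intro u y hy
    have hle : Verbal {vC} F ≤ Subgroup.centralizer {vW (cm u)} := by
      apply verbalC_le
      intro u'
      rw [Subgroup.mem_centralizer_singleton_iff]
      exact hc u' u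
    exact Subgroup.mem_centralizer_singleton_iff.mp (hle hy)
  have hle : Verbal {vC} F ≤ Subgroup.centralizer {y} := by
    apply verbalC_le
    intro u
    rw [Subgroup.mem_centralizer_singleton_iff]
    exact (h1 u y hy).symm
  exact Subgroup.mem_centralizer_singleton_iff.mp (hle hx)

lemma C_root (hr : ∀ (p : ℕ → F) (m : ℕ), 1 ≤ m → rootW (cm p) m = vW (cm p))
    (hc : ∀ p p' : ℕ → F, commG (vW (cm p)) (vW (cm p')))
    (h : F) (hh : h ∈ Verbal {vC} F) (n : ℕ) (hn : 1 ≤ n) :
    ∃ x ∈ Verbal {vC} F, x ^ n = h := by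
  have hh' := hh
  unfold Verbal at hh'
  induction hh' using Subgroup.closure_induction with
  | mem x hx =>
    obtain ⟨u, rfl⟩ := (mem_VC x).mp hx
    refine ⟨(sW (cm u) n)⁻¹ * vW (cm u) * sW (cm u) n, ?_, hr u n hn⟩
    have h2 := (verbal_normal {vC} F).conj_mem (vW (cm u)) hh (sW (cm u) n)⁻¹
    rwa [inv_inv] at h2
  | one => exact ⟨1, one_mem _, one_pow _⟩
  | mul x y hx hy ihx ihy =>
    obtain ⟨a, ha, rfl⟩ := ihx hx
    obtain ⟨b, hb, rfl⟩ := ihy hy
    refine ⟨a * b, mul_mem ha hb, ?_⟩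
    exact (show Commute a b from C_comm hc a b ha hb).mul_pow n
  | inv x hx ihx =>
    obtain ⟨a, ha, rfl⟩ := ihx hx
    exact ⟨a⁻¹, inv_mem ha, inv_pow a n⟩

/-- the values of the word are conjugate to their powers -/
lemma C_conj (hr : ∀ (p : ℕ → F) (m : ℕ), 1 ≤ m → rootW (cm p) m = vW (cm p))
    (p : ℕ → F) (m : ℕ) (hm : 1 ≤ m) : IsConj (vW (cm p)) (vW (cm p) ^ m) := by
  have h := hr p m hm
  have h1 : ((sW (cm p) m)⁻¹ * vW (cm p) * sW (cm p) m) ^ m = vW (cm p) := h
  have h2 : ((sW (cm p) m)⁻¹ * vW (cm p) * (sW (cm p) m)⁻¹⁻¹) ^ m = vW (cm p) := by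
    rw [inv_inv]; exact h1
  rw [conj_pow, inv_inv] at h2
  rw [isConj_iff]
  refine ⟨sW (cm p) m, ?_⟩
  calc sW (cm p) m * vW (cm p) * (sW (cm p) m)⁻¹
      = sW (cm p) m * ((sW (cm p) m)⁻¹ * vW (cm p) ^ m * sW (cm p) m) * (sW (cm p) m)⁻¹ := by
        rw [h2]
    _ = vW (cm p) ^ m := by group

end abs

section KKlaws

variable {K : Type} [Group K]

lemma pi_vW (g : ℕ → ℤ → K) (n : ℤ) : vW g n = vW (fun i => g i n) :=
  map_vW (Pi.evalMonoidHom (fun _ : ℤ => K) n) g

lemma pi_rootW (g : ℕ → ℤ → K) (m : ℕ) (n : ℤ) : rootW g m n = rootW (fun i => g i n) m :=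
  map_rootW (Pi.evalMonoidHom (fun _ : ℤ => K) n) g m

lemma KK_root (hr : ∀ (a : ℕ → K) (m : ℕ), 1 ≤ m → rootW a m = vW a)
    (p : ℕ → KK K) (m : ℕ) (hm : 1 ≤ m) : rootW (cm p) m = vW (cm p) := by
  choose g hg using fun i => comm_base (p (2 * i)) (p (2 * i + 1))
  have h : cm p = fun i => (SemidirectProduct.inl : (ℤ → K) →* KK K) (g i) := funext hg
  rw [h, ← map_rootW, ← map_vW]
  congr 1
  funext n
  rw [pi_rootW, pi_vW]
  exact hr _ m hm

lemma KK_comm (hc : ∀ a a' : ℕ → K, commG (vW a) (vW a'))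
    (p p' : ℕ → KK K) : commG (vW (cm p)) (vW (cm p')) := by
  choose g hg using fun i => comm_base (p (2 * i)) (p (2 * i + 1))
  choose g' hg' using fun i => comm_base (p' (2 * i)) (p' (2 * i + 1))
  have h : cm p = fun i => (SemidirectProduct.inl : (ℤ → K) →* KK K) (g i) := funext hg
  have h' : cm p' = fun i => (SemidirectProduct.inl : (ℤ → K) →* KK K) (g' i) := funext hg'
  rw [h, h', ← map_vW, ← map_vW]
  unfold commG
  rw [← map_mul, ← map_mul]
  congr 1
  funext n
  rw [Pi.mul_apply, Pi.mul_apply, pi_vW, pi_vW]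
  exact hc _ _

/-- elements of the base group all of whose values lie in the verbal subgroup -/
def baseV (K : Type) [Group K] : Subgroup (KK K) :=
  (Subgroup.pi Set.univ (fun _ : ℤ => Verbal WW K)).map SemidirectProduct.inl

lemma verbal_KK (x : KK K) (hx : x ∈ Verbal {vC} (KK K)) :
    ∃ g : ℤ → K, (∀ n, g n ∈ Verbal WW K) ∧ x = SemidirectProduct.inl g := by
  have hle : Verbal {vC} (KK K) ≤ baseV K := by
    apply verbalC_le
    intro p
    choose g hg using fun i => comm_base (p (2 * i)) (p (2 * i + 1))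
    have h : cm p = fun i => (SemidirectProduct.inl : (ℤ → K) →* KK K) (g i) := funext hg
    rw [h, ← map_vW]
    refine ⟨_, ?_, rfl⟩
    intro n _
    rw [pi_vW]
    apply Subgroup.subset_closure
    exact (mem_WW _).mpr ⟨_, rfl⟩
  obtain ⟨g, hg, rfl⟩ := hle hx
  exact ⟨g, fun n => hg n trivial, rfl⟩

lemma KK_tf (ht : ∀ x ∈ Verbal WW K, ∀ n : ℕ, 1 ≤ n → x ^ n = 1 → x = 1)
    (x : KK K) (hx : x ∈ Verbal {vC} (KK K)) (n : ℕ) (hn : 1 ≤ n) (h : x ^ n = 1) : x = 1 := by
  obtain ⟨g, hg, rfl⟩ := verbal_KK x hx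
  rw [← map_pow] at h
  have h1 : g ^ n = 1 := SemidirectProduct.inl_injective (h.trans (map_one _).symm)
  have h2 : g = 1 := by
    funext k
    exact ht (g k) (hg k) n hn (congrFun h1 k)
  rw [h2, map_one]

/-- the generator of the shifts -/
def xK (K : Type) [Group K] : KK K := SemidirectProduct.inr (Multiplicative.ofAdd 1)

/-- the function carrying the tuple -/
def fK (a : ℕ → K) : ℤ → K := fun n => if n ≤ 0 then 1 else a (n.toNat - 1)

/-- the second generator -/
def yK (a : ℕ → K) : KK K := SemidirectProduct.inl (fK a)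

lemma comm_xy (a : ℕ → K) (i : ℕ) :
    ⁅xK K ^ (i + 1), yK a⁆ = SemidirectProduct.inl
      (shA K (Multiplicative.ofAdd ((i : ℤ) + 1)) (fK a) * (fK a)⁻¹) := by
  rw [map_mul, SemidirectProduct.inl_aut, commutatorElement_def]
  have h : xK K ^ (i + 1) = SemidirectProduct.inr (Multiplicative.ofAdd ((i : ℤ) + 1)) := by
    unfold xK
    rw [← map_pow, ← ofAdd_nsmul]
    congr 2
    simp
  rw [h]
  unfold yK
  rw [map_inv, map_inv]

lemma val_xy (a : ℕ → K) (i : ℕ) :
    (shA K (Multiplicative.ofAdd ((i : ℤ) + 1)) (fK a) * (fK a)⁻¹) 0 = a i := by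
  rw [Pi.mul_apply, Pi.inv_apply]
  change fK a (0 + ((i : ℤ) + 1)) * (fK a 0)⁻¹ = a i
  unfold fK
  rw [if_neg (by omega), if_pos (le_refl _), inv_one, mul_one]
  congr 1
  omega

/-- the tuple whose commutators carry `a` -/
def pxy {G : Type} [Group G] (x y : G) : ℕ → G := fun j => if j % 2 = 0 then x ^ (j / 2 + 1) else y

lemma cm_pxy {G : Type} [Group G] (x y : G) (i : ℕ) : cm (pxy x y) i = ⁅x ^ (i + 1), y⁆ := by
  unfold cm pxy
  have h1 : (2 * i) % 2 = 0 := by omega
  have h2 : (2 * i + 1) % 2 ≠ 0 := by omega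
  have h3 : (2 * i) / 2 = i := by omega
  rw [if_pos h1, if_neg h2, h3]

lemma map_pxy {G H : Type} [Group G] [Group H] (φ : G →* H) (x y : G) :
    (fun i => φ (pxy x y i)) = pxy (φ x) (φ y) := by
  funext i
  unfold pxy
  split_ifs
  · rw [map_pow]
  · rfl

lemma KK_indep (a : ℕ → K) (ha : Indep (yW a)) : Indep (yW (cm (pxy (xK K) (yK a)))) := by
  intro N k hk
  apply ha N k
  have h : cm (pxy (xK K) (yK a)) = fun i : ℕ => (SemidirectProduct.inl : (ℤ → K) →* KK K)
      (shA K (Multiplicative.ofAdd ((i : ℤ) + 1)) (fK a) * (fK a)⁻¹) := by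
    funext i
    rw [cm_pxy, comm_xy]
  rw [h] at hk
  have h1 : ((List.range N).map (fun i => yW (fun i : ℕ => (SemidirectProduct.inl : (ℤ → K) →* KK K)
      (shA K (Multiplicative.ofAdd ((i : ℤ) + 1)) (fK a) * (fK a)⁻¹)) i ^ k i)).prod =
      (SemidirectProduct.inl : (ℤ → K) →* KK K) ((List.range N).map (fun i => yW (fun i : ℕ =>
        (shA K (Multiplicative.ofAdd ((i : ℤ) + 1)) (fK a) * (fK a)⁻¹)) i ^ k i)).prod := by
    rw [map_list_prod, List.map_map]
    congr 1
    apply List.map_congr_left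
    intro i _
    rw [Function.comp_apply, map_zpow, map_yW]
  rw [h1] at hk
  have h2 := SemidirectProduct.inl_injective (hk.trans (map_one _).symm)
  have h3 := congrArg (Pi.evalMonoidHom (fun _ : ℤ => K) 0) h2
  rw [map_list_prod, List.map_map, map_one] at h3
  rw [← h3]
  congr 1
  apply List.map_congr_left
  intro i _
  rw [Function.comp_apply, map_zpow, map_yW]
  congr 2
  funext j
  exact (val_xy a j).symm

end KKlaws

section rel

variable {K : Type} [Group K] (α : Type)

lemma relC_root (hr : ∀ (p : ℕ → K) (m : ℕ), 1 ≤ m → rootW (cm p) m = vW (cm p))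
    (p : ℕ → FreeGroup α ⧸ Verbal (Laws K) (FreeGroup α)) (m : ℕ) (hm : 1 ≤ m) :
    rootW (cm p) m = vW (cm p) := by
  choose v hv using fun i => QuotientGroup.mk'_surjective (Verbal (Laws K) (FreeGroup α)) (p i)
  have hu : (fun i => QuotientGroup.mk' (Verbal (Laws K) (FreeGroup α)) (v i)) = p := by
    funext i; exact hv i
  have e1 := map_rootW (QuotientGroup.mk' (Verbal (Laws K) (FreeGroup α))) (cm v) m
  have e2 := map_vW (QuotientGroup.mk' (Verbal (Laws K) (FreeGroup α))) (cm v)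
  rw [map_cm, hu] at e1 e2
  rw [← e1, ← e2]
  apply pj_eq
  intro ψ
  rw [map_rootW, map_vW, map_cm]
  exact hr _ m hm

lemma relC_comm (hc : ∀ p p' : ℕ → K, commG (vW (cm p)) (vW (cm p')))
    (p p' : ℕ → FreeGroup α ⧸ Verbal (Laws K) (FreeGroup α)) :
    commG (vW (cm p)) (vW (cm p')) := by
  choose v hv using fun i => QuotientGroup.mk'_surjective (Verbal (Laws K) (FreeGroup α)) (p i)
  choose v' hv' using fun i => QuotientGroup.mk'_surjective (Verbal (Laws K) (FreeGroup α)) (p' i)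
  have hu : (fun i => QuotientGroup.mk' (Verbal (Laws K) (FreeGroup α)) (v i)) = p := by
    funext i; exact hv i
  have hu' : (fun i => QuotientGroup.mk' (Verbal (Laws K) (FreeGroup α)) (v' i)) = p' := by
    funext i; exact hv' i
  have e1 := map_vW (QuotientGroup.mk' (Verbal (Laws K) (FreeGroup α))) (cm v)
  have e2 := map_vW (QuotientGroup.mk' (Verbal (Laws K) (FreeGroup α))) (cm v')
  rw [map_cm, hu] at e1
  rw [map_cm, hu'] at e2
  unfold commG
  rw [← e1, ← e2, ← map_mul, ← map_mul]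
  apply pj_eq
  intro ψ
  rw [map_mul, map_mul, map_vW, map_vW, map_cm, map_cm]
  exact hc _ _

lemma verbalC_map {F : Type} [Group F] (φ : F →* K) (x : F) (hx : x ∈ Verbal {vC} F) :
    φ x ∈ Verbal {vC} K := by
  have hle : Verbal {vC} F ≤ (Verbal {vC} K).comap φ := by
    apply verbalC_le
    intro u
    rw [Subgroup.mem_comap, map_vW, map_cm]
    exact vC_mem _
  exact hle hx

lemma relC_tf (ht : ∀ x ∈ Verbal {vC} K, ∀ n : ℕ, 1 ≤ n → x ^ n = 1 → x = 1)
    (x : FreeGroup α ⧸ Verbal (Laws K) (FreeGroup α)) (hx : x ∈ Verbal {vC} _) (n : ℕ)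
    (hn : 1 ≤ n) (h : x ^ n = 1) : x = 1 := by
  obtain ⟨u, rfl⟩ := QuotientGroup.mk'_surjective (Verbal (Laws K) (FreeGroup α)) x
  rw [← map_one (QuotientGroup.mk' (Verbal (Laws K) (FreeGroup α)))]
  apply pj_eq
  intro ψ
  rw [map_one, ← ind_mk α ψ u]
  apply ht _ (verbalC_map (ind α ψ) _ hx) n hn
  rw [← map_pow, h, map_one]

lemma relC_indep (x y : K) (h : Indep (yW (cm (pxy x y)))) (s t : α) (hst : s ≠ t) :
    ∃ p : ℕ → FreeGroup α ⧸ Verbal (Laws K) (FreeGroup α), Indep (yW (cm p)) := by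
  classical
  let ψ : FreeGroup α →* K := FreeGroup.lift (fun a => if a = s then x else if a = t then y else 1)
  have hs : ψ (FreeGroup.of s) = x := by
    have := FreeGroup.lift_apply_of (f := fun a => if a = s then x else if a = t then y else 1)
      (x := s)
    exact this.trans (if_pos rfl)
  have ht : ψ (FreeGroup.of t) = y := by
    have := FreeGroup.lift_apply_of (f := fun a => if a = s then x else if a = t then y else 1)
      (x := t)
    exact this.trans ((if_neg hst.symm).trans (if_pos rfl))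
  refine ⟨pxy (QuotientGroup.mk' (Verbal (Laws K) (FreeGroup α)) (FreeGroup.of s))
    (QuotientGroup.mk' (Verbal (Laws K) (FreeGroup α)) (FreeGroup.of t)), ?_⟩
  apply indep_map (ind α ψ)
  have he : (fun i => ind α ψ (yW (cm (pxy
      (QuotientGroup.mk' (Verbal (Laws K) (FreeGroup α)) (FreeGroup.of s))
      (QuotientGroup.mk' (Verbal (Laws K) (FreeGroup α)) (FreeGroup.of t)))) i)) =
      yW (cm (pxy x y)) := by
    funext i
    rw [map_yW, map_cm, map_pxy, ind_mk, ind_mk, hs, ht]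
  rw [he]
  exact h

end rel

lemma yW_mem {F : Type} [Group F] (p : ℕ → F) (i : ℕ) : yW (cm p) i ∈ Verbal {vC} F :=
  (verbal_normal {vC} F).conj_mem _ (vC_mem p) _

lemma indep_ne {G : Type} [Group G] (y : ℕ → G) (h : Indep y) (i : ℕ) : y i ≠ 1 := by
  intro hi
  have := h (i + 1) (fun j => if j = i then 1 else 0) (by
    apply List.prod_eq_one
    intro z hz
    obtain ⟨j, _, rfl⟩ := List.mem_map.mp hz
    by_cases hj : j = i
    · simp [hj, hi]
    · simp [hj]) i (by omega)
  simp at this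

end Pool.Agent.Y448.Rad
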